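import Pool.Agent.SNP.E.Aff

/-!
# MP_28f5fb_ag: full dynamical Mordell-Lang for split polynomial maps of `𝔸^N` over `ℂ`

The theorem `result` contains the assertion of Q1 (curves) and proves it for all Zariski closed subsets: for all `N`,
all complex polynomials `f_1, ..., f_N` (of any degrees, constants allowed), every starting point `α ∈ ℂ^N` and every
Zariski closed subset `V ⊆ 𝔸^N_ℂ` (of any dimension, not necessarily irreducible) the return set `{n | Φ^n(α) ∈ V}` is
a finite union of arithmetic progressions.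

It is deduced from project SNP (`Pool/Agent/SNP`): full dynamical Mordell-Lang for products of rational maps of the
projective line over `ℂ`.
-/

set_option autoImplicit false

open Polynomial

namespace Pool.Agent.Results.MP_28f5fb_ag.SplitSubvarieties

/-- the split map `Φ(x_1, ..., x_N) = (f_1(x_1), ..., f_N(x_N))` -/
def splitMap {N : ℕ} (f : Fin N → ℂ[X]) (x : Fin N → ℂ) : Fin N → ℂ :=
  fun i => (f i).eval (x i)

/-- the set of common zeros in `ℂ^N` of a set `S` of polynomials in `N` variables: every Zariski closed subset of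
`𝔸^N_ℂ` has this form -/
def commonZeros {N : ℕ} (S : Set (MvPolynomial (Fin N) ℂ)) : Set (Fin N → ℂ) :=
  {x | ∀ p ∈ S, MvPolynomial.eval x p = 0}

/-- the arithmetic progression `{a + k b : k ≥ 0}`; `b = 0` is allowed -/
def progression (a b : ℕ) : Set ℕ := {n | ∃ k : ℕ, n = a + k * b}

/-- the return set `{n ≥ 0 : Φ^n(α) ∈ V}` -/
def returnSet {N : ℕ} (f : Fin N → ℂ[X]) (V : Set (Fin N → ℂ)) (α : Fin N → ℂ) : Set ℕ :=
  {n | (splitMap f)^[n] α ∈ V}

theorem result (N : ℕ) (f : Fin N → ℂ[X]) (α : Fin N → ℂ) (S : Set (MvPolynomial (Fin N) ℂ)) :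
    ∃ T : Finset (ℕ × ℕ), returnSet f (commonZeros S) α = ⋃ t ∈ T, progression t.1 t.2 :=
  Pool.Agent.SNP.EP_union (Pool.Agent.SNP.ep_affine f α S)

end Pool.Agent.Results.MP_28f5fb_ag.SplitSubvarieties
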